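import Pool.Agent.H262Z.Ab.Main

set_option autoImplicit false

namespace Pool.Agent.Results.MP_c52a38_ag.ACounterexample

open Pool.Agent.H262Z.Ab

/-- There are an abelian variety `X = ℂ^g / Λ` and an ample `ℚ`-divisor class `H` with
`(B^g) > g^g` such that for every effective `ℚ`-divisor `D = (1/m) div θ` in this class, if `Z(D)`
is an abelian subvariety, then it has positive dimension and `(X, B)` does not split. -/
theorem result : ∃ (g : ℕ) (b : Fin (2 * g) → Fin g → ℂ) (H : Matrix (Fin g) (Fin g) ℂ),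
    1 ≤ g ∧ LinearIndependent ℝ b ∧ IsAmpleQ b H ∧ (g : ℝ) ^ g < selfInt b H ∧
    ∀ (m : ℕ) (θ : (Fin g → ℂ) → ℂ), 1 ≤ m → IsTheta b H m θ →
      ∀ W : Submodule ℂ (Fin g → ℂ), IsAbSub b W → cosupport m θ = preim b W →
        W ≠ ⊥ ∧ ¬ Splits b H :=
  main

end Pool.Agent.Results.MP_c52a38_ag.ACounterexample
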